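import Pool.Agent.N741.LD.Stm

/-!
# LD/5: multiplicity of roots of sparse polynomials
-/

set_option autoImplicit false

namespace Pool.Agent.N525.LD

open Polynomial

theorem few_aux (τ : ℂ) (hτ : τ ≠ 0) : ∀ (d : ℕ) (P : ℂ[X]), P.natDegree ≤ d → P ≠ 0 →
    P.rootMultiplicity τ < P.support.card := by
  intro d
  induction d with
  | zero =>
    intro P hd hP
    rw [eq_C_of_natDegree_le_zero hd, rootMultiplicity_C]
    rw [Finset.card_pos, support_nonempty]
    rwa [← eq_C_of_natDegree_le_zero hd]
  | succ d ih =>
    intro P hd hP
    by_cases h0 : P.coeff 0 = 0
    · -- divide by `X`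
      have hX : P = P.divX * X := by
        have := divX_mul_X_add P
        rw [h0, C_0, add_zero] at this
        exact this.symm
      have hQ : P.divX ≠ 0 := fun h => hP (by rw [hX, h, zero_mul])
      have h1 : P.rootMultiplicity τ = P.divX.rootMultiplicity τ := by
        conv_lhs => rw [hX]
        rw [rootMultiplicity_mul (by rw [← hX]; exact hP)]
        have h2 : rootMultiplicity τ (X : ℂ[X]) = 0 := by
          apply rootMultiplicity_eq_zero
          simpa using hτ
        rw [h2, add_zero]
      have h3 : P.divX.natDegree ≤ d := by
        rw [natDegree_divX_eq_natDegree_tsub_one]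
        omega
      have h4 : P.divX.support.card ≤ P.support.card := by
        apply Finset.card_le_card_of_injOn (fun n => n + 1)
        · intro n hn
          simp only [Finset.mem_coe, mem_support_iff, coeff_divX] at hn ⊢
          exact hn
        · intro a _ b _ h
          simpa using h
      rw [h1]
      exact (ih _ h3 hQ).trans_le h4
    · by_cases hc : P.natDegree = 0
      · rw [eq_C_of_natDegree_le_zero hc.le, rootMultiplicity_C]
        rw [Finset.card_pos, support_nonempty]
        rwa [← eq_C_of_natDegree_le_zero hc.le]
      · have hP' : P.derivative ≠ 0 := fun h => hc (derivative_eq_zero.1 h)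
        have h1 := rootMultiplicity_sub_one_le_derivative_rootMultiplicity P τ
        have h3 : P.derivative.natDegree ≤ d := by
          have := natDegree_derivative_lt hc
          omega
        have h2 := ih _ h3 hP'
        have h4 : P.derivative.support.card ≤ (P.support.erase 0).card := by
          apply Finset.card_le_card_of_injOn (fun n => n + 1)
          · intro n hn
            simp only [Finset.mem_coe, mem_support_iff, coeff_derivative, Finset.mem_erase] at hn ⊢
            exact ⟨by omega, left_ne_zero_of_mul hn⟩
          · intro a _ b _ h
            simpa using h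
        have h5 : (P.support.erase 0).card = P.support.card - 1 :=
          Finset.card_erase_of_mem (mem_support_iff.2 h0)
        have h6 : 0 < P.support.card := Finset.card_pos.2 (support_nonempty.2 hP)
        omega

/-- **LD/5** -/
theorem few : Pool.Agent.N741.LD.Few := fun P τ hP hτ => few_aux τ hτ _ P le_rfl hP

end Pool.Agent.N525.LD
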